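import Mathlib

/-!
# An integer sequence as the diagonal of a power series in two variables

`lSeq n` is the coefficient of `x ^ n * u ^ n` of an explicit power series in two variables with
integer coefficients. It satisfies the recurrence `lSeq_succ`.
-/

set_option autoImplicit false

namespace Pool.Agent.Helper27.Mag

open MvPowerSeries Finset

/-- Power series in two variables over the integers. -/
abbrev A := MvPowerSeries (Fin 2) ℤ

/-- First variable. -/
noncomputable def vx : A := X 0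

/-- Second variable. -/
noncomputable def vu : A := X 1

/-- Exponent `(j, k)`. -/
noncomputable def ex (j k : ℕ) : Fin 2 →₀ ℕ := Finsupp.single 0 j + Finsupp.single 1 k

/-- The coefficient of `x ^ j * u ^ k`. -/
noncomputable def cf (f : A) (j k : ℕ) : ℤ := coeff (ex j k) f

lemma ex_zero (j k : ℕ) : ex j k 0 = j := by simp [ex]

lemma ex_one (j k : ℕ) : ex j k 1 = k := by simp [ex]

lemma ex_eta (d : Fin 2 →₀ ℕ) : ex (d 0) (d 1) = d := by
  ext i
  fin_cases i
  · exact ex_zero _ _
  · exact ex_one _ _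

lemma cf_ext {f g : A} (h : ∀ j k, cf f j k = cf g j k) : f = g := by
  ext d
  have := h (d 0) (d 1)
  unfold cf at this
  rwa [ex_eta] at this

lemma cf_add (f g : A) (j k : ℕ) : cf (f + g) j k = cf f j k + cf g j k := by simp [cf]

lemma cf_sub (f g : A) (j k : ℕ) : cf (f - g) j k = cf f j k - cf g j k := by simp [cf]

lemma cf_neg (f : A) (j k : ℕ) : cf (-f) j k = - cf f j k := by simp [cf]

lemma cf_int_mul (c : ℤ) (f : A) (j k : ℕ) : cf ((c : A) * f) j k = c * cf f j k := by
  unfold cf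
  have : ((c : A)) = C c := by simp
  rw [this, coeff_C_mul]

lemma cf_x_mul_succ (f : A) (j k : ℕ) : cf (vx * f) (j + 1) k = cf f j k := by
  unfold cf vx
  have : ex (j + 1) k = Finsupp.single 0 1 + ex j k := by
    unfold ex
    rw [Finsupp.single_add, add_assoc, add_left_comm]
  rw [this, X, coeff_add_monomial_mul, one_mul]

lemma cf_u_mul_succ (f : A) (j k : ℕ) : cf (vu * f) j (k + 1) = cf f j k := by
  unfold cf vu
  have : ex j (k + 1) = Finsupp.single 1 1 + ex j k := by
    unfold ex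
    rw [Finsupp.single_add]
    abel
  rw [this, X, coeff_add_monomial_mul, one_mul]

lemma cf_x_mul_zero (f : A) (k : ℕ) : cf (vx * f) 0 k = 0 := by
  classical
  unfold cf vx
  rw [X, coeff_monomial_mul, if_neg]
  intro h
  have := h 0
  rw [ex_zero] at this
  simp at this

lemma cf_u_mul_zero (f : A) (j : ℕ) : cf (vu * f) j 0 = 0 := by
  classical
  unfold cf vu
  rw [X, coeff_monomial_mul, if_neg]
  intro h
  have := h 1
  rw [ex_one] at this
  simp at this

/-- Derivative in `x`. -/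
noncomputable def dx (f : MvPowerSeries (Fin 2) ℤ) : MvPowerSeries (Fin 2) ℤ := pderiv ℤ 0 f

/-- Derivative in `u`. -/
noncomputable def du (f : MvPowerSeries (Fin 2) ℤ) : MvPowerSeries (Fin 2) ℤ := pderiv ℤ 1 f

lemma cf_dx (f : A) (j k : ℕ) : cf (dx f) j k = cf f (j + 1) k * (j + 1) := by
  have h := coeff_pderiv (i := (0 : Fin 2)) f (ex j k)
  rw [ex_zero] at h
  have h2 : ex j k + Finsupp.single 0 1 = ex (j + 1) k := by
    unfold ex
    rw [Finsupp.single_add]
    abel
  rw [h2] at h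
  exact h

lemma cf_du (f : A) (j k : ℕ) : cf (du f) j k = cf f j (k + 1) * (k + 1) := by
  have h := coeff_pderiv (i := (1 : Fin 2)) f (ex j k)
  rw [ex_one] at h
  have h2 : ex j k + Finsupp.single 1 1 = ex j (k + 1) := by
    unfold ex
    rw [Finsupp.single_add]
    abel
  rw [h2] at h
  exact h

lemma dx_add (f g : A) : dx (f + g) = dx f + dx g := map_add (pderiv ℤ (0 : Fin 2)) f g

lemma du_add (f g : A) : du (f + g) = du f + du g := map_add (pderiv ℤ (1 : Fin 2)) f g

lemma dx_mul (f g : A) : dx (f * g) = f * dx g + g * dx f :=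
  (pderiv ℤ (0 : Fin 2)).leibniz f g

lemma du_mul (f g : A) : du (f * g) = f * du g + g * du f :=
  (pderiv ℤ (1 : Fin 2)).leibniz f g

lemma dx_neg (f : A) : dx (-f) = - dx f := by
  apply cf_ext; intro j k; rw [cf_neg, cf_dx, cf_dx, cf_neg]; ring

lemma du_neg (f : A) : du (-f) = - du f := by
  apply cf_ext; intro j k; rw [cf_neg, cf_du, cf_du, cf_neg]; ring

lemma dx_sub (f g : A) : dx (f - g) = dx f - dx g := by
  rw [sub_eq_add_neg, dx_add, dx_neg, sub_eq_add_neg]

lemma du_sub (f g : A) : du (f - g) = du f - du g := by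
  rw [sub_eq_add_neg, du_add, du_neg, sub_eq_add_neg]

lemma dx_one : dx (1 : A) = 0 := pderiv_one

lemma du_one : du (1 : A) = 0 := pderiv_one

lemma dx_ofNat (n : ℕ) [n.AtLeastTwo] : dx (ofNat(n) : A) = 0 := by
  have h : (ofNat(n) : A) = C (ofNat(n) : ℤ) := by simp
  rw [h]
  exact pderiv_C

lemma du_ofNat (n : ℕ) [n.AtLeastTwo] : du (ofNat(n) : A) = 0 := by
  have h : (ofNat(n) : A) = C (ofNat(n) : ℤ) := by simp
  rw [h]
  exact pderiv_C

lemma dx_x : dx vx = 1 := pderiv_X_self

lemma du_u : du vu = 1 := pderiv_X_self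

lemma dx_u : dx vu = 0 := pderiv_X_of_ne (by decide)

lemma du_x : du vx = 0 := pderiv_X_of_ne (by decide)

/-- The coefficients of `((1 + u) ^ 2 + 4 * x) ^ (-1/2)`. -/
def sc (j k : ℕ) : ℤ := (-1) ^ (j + k) * ((Nat.choose (2 * j + k) k : ℤ) * (Nat.centralBinom j : ℤ))

/-- The power series `((1 + u) ^ 2 + 4 * x) ^ (-1/2)`. -/
noncomputable def sS : A := fun d => sc (d 0) (d 1)

lemma cf_S (j k : ℕ) : cf sS j k = sc j k := by
  unfold cf sS
  show sc (ex j k 0) (ex j k 1) = _
  rw [ex_zero, ex_one]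

lemma choose_succ_right (j k : ℕ) :
    (Nat.choose (2 * j + (k + 1)) (k + 1) : ℤ) * (k + 1)
      = (Nat.choose (2 * j + k) k : ℤ) * (2 * j + k + 1) := by
  have h := Nat.add_one_mul_choose_eq (2 * j + k) k
  have h' : ((2 * j + k + 1 : ℕ) : ℤ) * (Nat.choose (2 * j + k) k : ℤ)
      = (Nat.choose (2 * j + k + 1) (k + 1) : ℤ) * ((k + 1 : ℕ) : ℤ) := by exact_mod_cast h
  push_cast at h'
  rw [← add_assoc]
  linarith

lemma sc_succ_right (j k : ℕ) : sc j (k + 1) * (k + 1) = -(2 * j + k + 1) * sc j k := by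
  unfold sc
  have h := choose_succ_right j k
  have h2 : ((-1 : ℤ)) ^ (j + (k + 1)) = - (-1) ^ (j + k) := by rw [← add_assoc, pow_succ]; ring
  rw [h2]
  linear_combination (- (-1) ^ (j + k) * (Nat.centralBinom j : ℤ)) * h

lemma centralBinom_succ' (j : ℕ) :
    ((j : ℤ) + 1) * (Nat.centralBinom (j + 1) : ℤ) = 2 * (2 * j + 1) * (Nat.centralBinom j : ℤ) := by
  have := Nat.succ_mul_centralBinom_succ j
  exact_mod_cast this

lemma sc_succ_left_zero (j : ℕ) : (j + 1) * sc (j + 1) 0 = 2 * sc j 1 := by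
  unfold sc
  have h := centralBinom_succ' j
  have h3 : ((-1 : ℤ)) ^ (j + 1) = - (-1) ^ j := by rw [pow_succ]; ring
  rw [add_zero (j + 1), h3]
  simp only [Nat.choose_zero_right, Nat.choose_one_right, Nat.cast_one, one_mul]
  push_cast
  linear_combination (- (-1) ^ j) * h

lemma choose_succ_left (j k : ℕ) :
    (Nat.choose (2 * (j + 1) + k) k : ℤ) * ((2 * j + 1) * (2 * j + 2))
      = (Nat.choose (2 * j + k) k : ℤ) * ((2 * j + k + 1) * (2 * j + k + 2)) := by
  have a1 : (2 * j + k + 1).choose k * (2 * j + 1) = (2 * j + k + 1) * (2 * j + k).choose k := by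
    have := Nat.choose_mul_succ_eq (2 * j + k) k
    have e1 : 2 * j + k + 1 - k = 2 * j + 1 := by omega
    rw [e1] at this
    linarith
  have a2 : (2 * j + k + 1 + 1).choose k * (2 * j + 2)
      = (2 * j + k + 2) * (2 * j + k + 1).choose k := by
    have := Nat.choose_mul_succ_eq (2 * j + k + 1) k
    have e1 : 2 * j + k + 1 + 1 - k = 2 * j + 2 := by omega
    rw [e1] at this
    linarith
  have e2 : 2 * (j + 1) + k = 2 * j + k + 1 + 1 := by ring
  rw [e2]
  have b1 : ((2 * j + k + 1).choose k : ℤ) * (2 * j + 1)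
      = (2 * j + k + 1) * ((2 * j + k).choose k : ℤ) := by exact_mod_cast a1
  have b2 : ((2 * j + k + 1 + 1).choose k : ℤ) * (2 * j + 2)
      = (2 * j + k + 2) * ((2 * j + k + 1).choose k : ℤ) := by exact_mod_cast a2
  linear_combination (2 * (j : ℤ) + 1) * b2 + (2 * (j : ℤ) + k + 2) * b1

/-- `(j+1)^2 s_{j+1,k} = - (2j+k+1)(2j+k+2) s_{j,k}` up to sign, cleared form. -/
lemma sc_succ_left (j k : ℕ) :
    (j + 1) ^ 2 * sc (j + 1) k = - ((2 * j + k + 1) * (2 * j + k + 2)) * sc j k := by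
  unfold sc
  have h := centralBinom_succ' j
  have h1 := choose_succ_left j k
  have h2 : ((-1 : ℤ)) ^ (j + 1 + k) = - (-1) ^ (j + k) := by
    rw [show j + 1 + k = (j + k) + 1 by ring, pow_succ]; ring
  rw [h2]
  set c1 : ℤ := (Nat.choose (2 * (j + 1) + k) k : ℤ)
  set c0 : ℤ := (Nat.choose (2 * j + k) k : ℤ)
  set b1 : ℤ := (Nat.centralBinom (j + 1) : ℤ)
  set b0 : ℤ := (Nat.centralBinom j : ℤ)
  set s : ℤ := (-1) ^ (j + k)
  -- (j+1) b1 = 2 (2j+1) b0 ; c1 (2j+1)(2j+2) = c0 (..)
  linear_combination (- s * c1 * (j + 1)) * h - s * b0 * h1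

lemma rel_b : (1 + vu) * du sS + 2 * (vx * dx sS) = - sS := by
  apply cf_ext
  intro j k
  have e1 : (1 + vu) * du sS = du sS + vu * du sS := by ring
  have e2 : (2 : A) * (vx * dx sS) = ((2 : ℤ) : A) * (vx * dx sS) := by norm_num
  rw [e1, e2, cf_add, cf_add, cf_int_mul, cf_neg, cf_du, cf_S, cf_S]
  have h1 : cf (vu * du sS) j k = k * sc j k := by
    cases k with
    | zero => rw [cf_u_mul_zero]; simp
    | succ k => rw [cf_u_mul_succ, cf_du, cf_S]; push_cast; ring
  have h2 : cf (vx * dx sS) j k = j * sc j k := by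
    cases j with
    | zero => rw [cf_x_mul_zero]; simp
    | succ j => rw [cf_x_mul_succ, cf_dx, cf_S]; push_cast; ring
  rw [h1, h2]
  have := sc_succ_right j k
  linear_combination this

lemma rel_a : (1 + vu) * dx sS = 2 * du sS := by
  apply cf_ext
  intro j k
  have e1 : (1 + vu) * dx sS = dx sS + vu * dx sS := by ring
  have e2 : (2 : A) * du sS = ((2 : ℤ) : A) * du sS := by norm_num
  rw [e1, e2, cf_add, cf_int_mul, cf_du, cf_dx, cf_S, cf_S]
  cases k with
  | zero =>
    rw [cf_u_mul_zero]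
    have := sc_succ_left_zero j
    push_cast
    linear_combination this
  | succ k =>
    rw [cf_u_mul_succ, cf_dx, cf_S]
    have hj : ((j : ℤ) + 1) ≠ 0 := by positivity
    apply mul_left_cancel₀ hj
    have h1 := sc_succ_left j (k + 1)
    have h2 := sc_succ_left j k
    have h3 := sc_succ_right j (k + 1)
    have h4 := sc_succ_right j k
    push_cast at h1 h2 h3 h4 ⊢
    have hk : ((k : ℤ) + 1) ≠ 0 := by positivity
    apply mul_left_cancel₀ hk
    -- everything in terms of sc j k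
    linear_combination ((k : ℤ) + 1) * h1 + ((k : ℤ) + 1) * h2
      - 2 * (j + 1) * ((k : ℤ) + 1) * h3
      + (-(2 * (j : ℤ) + (k + 1) + 1) * (2 * j + (k + 1) + 2)
          + 2 * (j + 1) * (2 * j + (k + 1) + 1)) * h4

/-- `(1 + u) ^ 2 + 4 * x`. -/
noncomputable def ff : A := (1 + vu) ^ 2 + 4 * vx

lemma rel_u : ff * du sS = - (1 + vu) * sS := by
  unfold ff
  linear_combination (1 + vu) * rel_b - 2 * vx * rel_a

lemma rel_x : ff * dx sS = - 2 * sS := by
  unfold ff
  linear_combination (1 + vu) * rel_a + 2 * rel_b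

end Pool.Agent.Helper27.Mag
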