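import Mathlib
import Pool.Agent.Helper27.Mag.Diag

/-!
# The certificate identity and the recurrence for the diagonal
-/

set_option autoImplicit false

namespace Pool.Agent.Helper27.Mag

open MvPowerSeries Finset

/-- `t = x * u`. -/
noncomputable def vt : A := vx * vu

/-- The denominator. -/
noncomputable def vM : A := 1 + vu + 48 * vt + 4096 * vx ^ 2 * vu ^ 3

/-- A polynomial in `t`. -/
noncomputable def vN : A := 1 - 288 * vt + 262144 * vt ^ 3

/-- Inverse of the denominator. -/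
noncomputable def vI : A := invOfUnit vM 1

lemma vM_mul_vI : vM * vI = 1 := by
  apply mul_invOfUnit
  unfold vM vt vx vu
  simp

/-- The series whose diagonal is considered. -/
noncomputable def vG : A := (-2 * vu * vN * vI - 9 + 128 * vt) * sS

/-- Numerator in the certificate. -/
noncomputable def vP : A :=
  3 + 4 * vu + 48 * vx + (1088 + 512 * vu + 6144 * vx - 12288 * vt) * vt

/-- The certificate. -/
noncomputable def vH : A := (-4 * vu * (1 + 48 * vt) * vP) * vI * sS

lemma dx_t : dx vt = vu := by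
  unfold vt
  rw [dx_mul, dx_x, dx_u]; ring

lemma du_t : du vt = vx := by
  unfold vt
  rw [du_mul, du_x, du_u]; ring

lemma du_N : du vN = (-288 + 786432 * vt ^ 2) * vx := by
  unfold vN
  have h : vt ^ 3 = vt * (vt * vt) := by ring
  rw [h]
  simp only [du_add, du_sub, du_mul, du_one, du_ofNat, du_t]
  ring

lemma dx_M : dx vM = 48 * vu + 8192 * vx * vu ^ 3 := by
  unfold vM
  have h : (4096 : A) * vx ^ 2 * vu ^ 3 = 4096 * ((vx * vx) * (vu * (vu * vu))) := by ring
  rw [h]
  simp only [dx_add, dx_mul, dx_one, dx_ofNat, dx_t, dx_x, dx_u]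
  ring

lemma du_M : du vM = 1 + 48 * vx + 12288 * vx ^ 2 * vu ^ 2 := by
  unfold vM
  have h : (4096 : A) * vx ^ 2 * vu ^ 3 = 4096 * ((vx * vx) * (vu * (vu * vu))) := by ring
  rw [h]
  simp only [du_add, du_mul, du_one, du_ofNat, du_t, du_x, du_u]
  ring

lemma dx_I : dx vI = - vI ^ 2 * dx vM := by
  have h : dx (vM * vI) = 0 := by rw [vM_mul_vI, dx_one]
  rw [dx_mul] at h
  have h2 := vM_mul_vI
  linear_combination (vI) * h - dx vI * h2

lemma du_I : du vI = - vI ^ 2 * du vM := by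
  have h : du (vM * vI) = 0 := by rw [vM_mul_vI, du_one]
  rw [du_mul] at h
  have h2 := vM_mul_vI
  linear_combination (vI) * h - du vI * h2

/-- x-derivative of `vP`. -/
noncomputable def vPx : A :=
  48 + (1088 + 512 * vu + 6144 * vx - 12288 * vt) * vu + (6144 - 12288 * vu) * vt

/-- u-derivative of `vP`. -/
noncomputable def vPu : A :=
  4 + (1088 + 512 * vu + 6144 * vx - 12288 * vt) * vx + (512 - 12288 * vx) * vt

lemma dx_P : dx vP = vPx := by
  unfold vP vPx
  simp only [dx_add, dx_sub, dx_mul, dx_ofNat, dx_t, dx_x, dx_u]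
  ring

lemma du_P : du vP = vPu := by
  unfold vP vPu
  simp only [du_add, du_sub, du_mul, du_ofNat, du_t, du_x, du_u]
  ring

lemma du_G : du vG = (-2 * vN * vI - 2 * vu * ((-288 + 786432 * vt ^ 2) * vx) * vI
      + 2 * vu * vN * vI ^ 2 * (1 + 48 * vx + 12288 * vx ^ 2 * vu ^ 2) + 128 * vx) * sS
      + (-2 * vu * vN * vI - 9 + 128 * vt) * du sS := by
  unfold vG
  have h : (-2 * vu * vN * vI - 9 + 128 * vt) = -(2 * vu * vN * vI) - 9 + 128 * vt := by ring
  rw [h]
  simp only [du_add, du_sub, du_neg, du_mul, du_ofNat, du_t, du_u, du_N, du_I, du_M]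
  ring

lemma dx_H : dx vH = ((-4 * vu * (48 * vu) * vP - 4 * vu * (1 + 48 * vt) * vPx) * vI
      + 4 * vu * (1 + 48 * vt) * vP * vI ^ 2 * (48 * vu + 8192 * vx * vu ^ 3)) * sS
      + (-4 * vu * (1 + 48 * vt) * vP) * vI * dx sS := by
  unfold vH
  have h : (-4 * vu * (1 + 48 * vt) * vP) * vI * sS = -(4 * vu * (1 + 48 * vt) * vP * vI * sS) := by
    ring
  rw [h]
  simp only [dx_add, dx_neg, dx_mul, dx_one, dx_ofNat, dx_t, dx_u, dx_P, dx_I, dx_M]
  ring

lemma du_H : du vH = ((-4 * (1 + 48 * vt) * vP - 4 * vu * (48 * vx) * vP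
        - 4 * vu * (1 + 48 * vt) * vPu) * vI
      + 4 * vu * (1 + 48 * vt) * vP * vI ^ 2 * (1 + 48 * vx + 12288 * vx ^ 2 * vu ^ 2)) * sS
      + (-4 * vu * (1 + 48 * vt) * vP) * vI * du sS := by
  unfold vH
  have h : (-4 * vu * (1 + 48 * vt) * vP) * vI * sS = -(4 * vu * (1 + 48 * vt) * vP * vI * sS) := by
    ring
  rw [h]
  simp only [du_add, du_neg, du_mul, du_one, du_ofNat, du_t, du_u, du_P, du_I, du_M]
  ring

lemma vM_ne : vM ≠ 0 := by
  intro h
  have := vM_mul_vI
  rw [h, zero_mul] at this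
  exact zero_ne_one this

lemma ff_ne : ff ≠ 0 := by
  intro h
  have h1 : constantCoeff (σ := Fin 2) (R := ℤ) ff = 0 := by rw [h]; simp
  unfold ff vx vu at h1
  simp at h1

/-- The certificate identity. -/
theorem cert : vG + 2 * vu * (1 + 48 * vt) * du vG - 9 * (32 * vt - 1) * sS
    = vx * dx vH - vu * du vH := by
  have hf := ff_ne
  have hM := vM_ne
  have hMI := vM_mul_vI
  have ru := rel_u
  have rx := rel_x
  have key : ff * vM ^ 2 * (vG + 2 * vu * (1 + 48 * vt) * du vG - 9 * (32 * vt - 1) * sS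
      - (vx * dx vH - vu * du vH)) = 0 := by
    rw [du_G, dx_H, du_H]
    have hG : vG = (-2 * vu * vN * vI - 9 + 128 * vt) * sS := rfl
    rw [hG]
    clear hG hf hM
    generalize du sS = Su at *
    generalize dx sS = Sx at *
    generalize sS = S at *
    generalize vI = I at *
    have key2 : ∀ (x u S I Su Sx M N P Px Pu F t : A), t = x * u →
      M = 1 + u + 48 * t + 4096 * x ^ 2 * u ^ 3 →
      N = 1 - 288 * t + 262144 * t ^ 3 →
      P = 3 + 4 * u + 48 * x + (1088 + 512 * u + 6144 * x - 12288 * t) * t →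
      Px = 48 + (1088 + 512 * u + 6144 * x - 12288 * t) * u + (6144 - 12288 * u) * t →
      Pu = 4 + (1088 + 512 * u + 6144 * x - 12288 * t) * x + (512 - 12288 * x) * t →
      F = (1 + u) ^ 2 + 4 * x → M * I = 1 → F * Su = - (1 + u) * S → F * Sx = - 2 * S →
      F * M ^ 2 * ((-2 * u * N * I - 9 + 128 * t) * S + 2 * u * (1 + 48 * t) *
        ((-2 * N * I - 2 * u * ((-288 + 786432 * t ^ 2) * x) * I
          + 2 * u * N * I ^ 2 * (1 + 48 * x + 12288 * x ^ 2 * u ^ 2) + 128 * x) * S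
          + (-2 * u * N * I - 9 + 128 * t) * Su) - 9 * (32 * t - 1) * S
        - (x * (((-4 * u * (48 * u) * P - 4 * u * (1 + 48 * t) * Px) * I
            + 4 * u * (1 + 48 * t) * P * I ^ 2 * (48 * u + 8192 * x * u ^ 3)) * S
            + (-4 * u * (1 + 48 * t) * P) * I * Sx)
          - u * (((-4 * (1 + 48 * t) * P - 4 * u * (48 * x) * P
              - 4 * u * (1 + 48 * t) * Pu) * I
            + 4 * u * (1 + 48 * t) * P * I ^ 2 * (1 + 48 * x + 12288 * x ^ 2 * u ^ 2)) * S
            + (-4 * u * (1 + 48 * t) * P) * I * Su))) = 0 := by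
      intro x u S I Su Sx M N P Px Pu F t ht hM hN hP hPx hPu hF hMI ru rx
      obtain ⟨B0, hB0⟩ : ∃ B0, B0 = -4 * u * (1 + 48 * t) * P := ⟨_, rfl⟩
      obtain ⟨al, hal⟩ : ∃ al, al = F * (4 * u ^ 2 * (1 + 48 * t) * N
          * (1 + 48 * x + 12288 * x ^ 2 * u ^ 2)
          + B0 * (x * (48 * u + 8192 * x * u ^ 3)
            - u * (1 + 48 * x + 12288 * x ^ 2 * u ^ 2))) := ⟨_, rfl⟩
      obtain ⟨be, hbe⟩ : ∃ be, be = F * (-2 * u * N + 2 * u * (1 + 48 * t) * (-2 * N
          - 2 * u * ((-288 + 786432 * t ^ 2) * x))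
          - (x * (-4 * u * (48 * u) * P - 4 * u * (1 + 48 * t) * Px)
            - u * (-4 * (1 + 48 * t) * P - 4 * u * (48 * x) * P - 4 * u * (1 + 48 * t) * Pu)))
          - (1 + u) * (-4 * u ^ 2 * (1 + 48 * t) * N + u * B0) + 2 * x * B0 := ⟨_, rfl⟩
      have hz : M ^ 2 * (F * (-9 + 128 * t + 2 * u * (1 + 48 * t) * (128 * x)
          - 9 * (32 * t - 1)) - (1 + u) * (2 * u * (1 + 48 * t) * (-9 + 128 * t)))
          + be * M + al = 0 := by
        rw [hbe, hal, hB0, hF, hPu, hPx, hP, hN, hM, ht]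
        ring
      subst hB0
      linear_combination (M ^ 2 * (2 * u * (1 + 48 * t) * (-2 * u * N * I - 9 + 128 * t)
          + u * (-4 * u * (1 + 48 * t) * P) * I)) * ru
        + (- M ^ 2 * x * (-4 * u * (1 + 48 * t) * P) * I) * rx
        + S * (al * (M * I + 1) + be * M) * hMI + S * hz
        + (S * I ^ 2 * M ^ 2) * (-hal) + (S * I * M ^ 2) * (-hbe)
    exact key2 vx vu S I Su Sx vM vN vP vPx vPu ff vt rfl rfl rfl rfl rfl rfl rfl hMI ru rx
  have h2 : ff * vM ^ 2 ≠ 0 := mul_ne_zero hf (pow_ne_zero 2 hM)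
  have h3 := (mul_eq_zero.1 key).resolve_left h2
  linear_combination h3

end Pool.Agent.Helper27.Mag
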