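import Mathlib
import Pool.Agent.Helper27.Mag.Cert

/-!
# The integer sequence `lSeq` and its recurrence
-/

set_option autoImplicit false

namespace Pool.Agent.Helper27.Mag

open MvPowerSeries Finset

/-- Diagonal coefficients of `vG`. -/
noncomputable def lSeq (n : ℕ) : ℤ := cf vG n n

/-- `(3 n)! / n! ^ 3`. -/
def fSeq (n : ℕ) : ℕ := Nat.choose (3 * n) n * Nat.centralBinom n

lemma cf_u_du (f : A) (j k : ℕ) : cf (vu * du f) j k = k * cf f j k := by
  cases k with
  | zero => rw [cf_u_mul_zero]; simp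
  | succ k => rw [cf_u_mul_succ, cf_du]; push_cast; ring

lemma cf_x_dx (f : A) (j k : ℕ) : cf (vx * dx f) j k = j * cf f j k := by
  cases j with
  | zero => rw [cf_x_mul_zero]; simp
  | succ k => rw [cf_x_mul_succ, cf_dx]; push_cast; ring

lemma cf_t_mul (f : A) (n : ℕ) : cf (vt * f) (n + 1) (n + 1) = cf f n n := by
  unfold vt
  rw [mul_assoc, cf_x_mul_succ, cf_u_mul_succ]

lemma cf_S_diag (n : ℕ) : cf sS n n = (fSeq n : ℤ) := by
  rw [cf_S]
  unfold sc fSeq
  rw [← two_mul, pow_mul]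
  have : 2 * n + n = 3 * n := by ring
  rw [this]
  norm_num

theorem lSeq_succ (n : ℕ) : (2 * (n : ℤ) + 3) * lSeq (n + 1)
    = - 96 * n * lSeq n + 288 * fSeq n - 9 * fSeq (n + 1) := by
  have h := congrArg (fun f => cf f (n + 1) (n + 1)) cert
  have e1 : vG + 2 * vu * (1 + 48 * vt) * du vG - 9 * (32 * vt - 1) * sS
      = vG + (((2 : ℤ) : A) * (vu * du vG) + (((96 : ℤ) : A) * (vt * (vu * du vG))))
        - (((288 : ℤ) : A) * (vt * sS) - ((9 : ℤ) : A) * sS) := by
    push_cast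
    ring
  rw [e1] at h
  simp only [cf_add, cf_sub, cf_int_mul, cf_t_mul, cf_u_du, cf_x_dx, cf_S_diag] at h
  unfold lSeq
  push_cast at h ⊢
  linear_combination h

end Pool.Agent.Helper27.Mag
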