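import Mathlib
import Pool.Agent.Helper27.Mag.Rec

/-!
# Divisibility by powers of three
-/

set_option autoImplicit false

namespace Pool.Agent.Helper27.Mag

open PowerSeries Finset

/-- Generating series of `lSeq`. -/
noncomputable def lP : ℤ⟦X⟧ := PowerSeries.mk lSeq

/-- Generating series of `fSeq`. -/
noncomputable def fP : ℤ⟦X⟧ := PowerSeries.mk (fun n => (fSeq n : ℤ))

/-- `(1 + 48 t) ^ (-1/2)`. -/
noncomputable def vP' : ℤ⟦X⟧ := PowerSeries.mk (fun n => (-12) ^ n * (Nat.centralBinom n : ℤ))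

/-- The coefficients of `(32 t - 1) (1 + 48 t) ^ (-3/2)`. -/
def eSeq : ℕ → ℤ
  | 0 => -1
  | (m + 1) => 4 * (-12) ^ m * (10 * (m + 1) + 3) * (Nat.centralBinom (m + 1) : ℤ)

/-- `(32 t - 1) (1 + 48 t) ^ (-3/2)`. -/
noncomputable def eP : ℤ⟦X⟧ := PowerSeries.mk eSeq

lemma cb_succ (j : ℕ) :
    ((j : ℤ) + 1) * (Nat.centralBinom (j + 1) : ℤ) = 2 * (2 * j + 1) * (Nat.centralBinom j : ℤ) :=
  centralBinom_succ' j

lemma lSeq_zero : lSeq 0 = -9 := by
  have h : lSeq 0 = MvPowerSeries.constantCoeff vG := by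
    unfold lSeq cf ex
    simp
  rw [h]
  have hI : MvPowerSeries.constantCoeff vM * MvPowerSeries.constantCoeff vI = 1 := by
    rw [← map_mul, vM_mul_vI, map_one]
  have hS : MvPowerSeries.constantCoeff sS = 1 := by
    have h2 : MvPowerSeries.constantCoeff sS = cf sS 0 0 := by
      unfold cf ex
      simp
    rw [h2, cf_S]
    simp [sc]
  unfold vG vt vx vu
  rw [map_mul, hS]
  simp
  exact map_ofNat (MvPowerSeries.constantCoeff (σ := Fin 2) (R := ℤ)) 9

lemma ode_l : lP + 2 * X * (1 + 48 * X) * d⁄dX ℤ lP = 9 * (32 * X - 1) * fP := by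
  have e1 : lP + 2 * X * (1 + 48 * X) * d⁄dX ℤ lP
      = lP + (C 2) * (X * d⁄dX ℤ lP) + (C 96) * (X * (X * d⁄dX ℤ lP)) := by
    have h2 : (C (2 : ℤ) : ℤ⟦X⟧) = 2 := by simp
    have h96 : (C (96 : ℤ) : ℤ⟦X⟧) = 96 := by simp
    rw [h2, h96]; ring
  have e2 : 9 * (32 * X - 1) * fP = (C 288) * (X * fP) - (C 9) * fP := by
    have h2 : (C (288 : ℤ) : ℤ⟦X⟧) = 288 := by simp
    have h96 : (C (9 : ℤ) : ℤ⟦X⟧) = 9 := by simp
    rw [h2, h96]; ring
  rw [e1, e2]
  ext n
  simp only [map_add, map_sub, coeff_C_mul]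
  cases n with
  | zero =>
    simp only [coeff_zero_X_mul, lP, fP, coeff_mk, lSeq_zero]
    simp [fSeq]
  | succ n =>
    simp only [coeff_succ_X_mul]
    cases n with
    | zero =>
      simp only [coeff_zero_X_mul, coeff_derivative, lP, fP, coeff_mk]
      have := lSeq_succ 0
      push_cast at this ⊢
      linear_combination this
    | succ n =>
      simp only [coeff_succ_X_mul, coeff_derivative, lP, fP, coeff_mk]
      have := lSeq_succ (n + 1)
      push_cast at this ⊢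
      linear_combination this

lemma ode_v : (1 + 48 * X) * d⁄dX ℤ vP' = - 24 * vP' := by
  have e1 : (1 + 48 * X) * d⁄dX ℤ vP' = d⁄dX ℤ vP' + (C 48) * (X * d⁄dX ℤ vP') := by
    have h2 : (C (48 : ℤ) : ℤ⟦X⟧) = 48 := by simp
    rw [h2]; ring
  have e2 : - 24 * vP' = (C (-24)) * vP' := by
    have h2 : (C (-24 : ℤ) : ℤ⟦X⟧) = -24 := by simp
    rw [h2]
  rw [e1, e2]
  ext n
  simp only [map_add, coeff_C_mul, coeff_derivative]
  have h := cb_succ n
  cases n with
  | zero =>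
    simp only [coeff_zero_X_mul, vP', coeff_mk]
    have h1 : Nat.centralBinom (0 + 1) = 2 := by decide
    rw [h1]
    norm_num
  | succ n =>
    simp only [coeff_succ_X_mul, vP', coeff_mk, coeff_derivative]
    push_cast at h ⊢
    linear_combination (-12) ^ (n + 2) * h

lemma one_add_ne : (1 + 48 * X : ℤ⟦X⟧) ≠ 0 := by
  intro h
  have := congrArg constantCoeff h
  simp at this

lemma v_sq : vP' * vP' * (1 + 48 * X) = 1 := by
  apply derivative.ext
  · have h1 : d⁄dX ℤ (1 + 48 * X : ℤ⟦X⟧) = 48 := by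
      have h48 : (48 : ℤ⟦X⟧) = C 48 := by simp
      have h49 : d⁄dX ℤ (48 : ℤ⟦X⟧) = 0 := by rw [h48]; exact derivative_C
      rw [map_add, Derivation.leibniz, h49]
      simp
    rw [Derivation.leibniz, Derivation.leibniz, h1, derivative_one]
    simp only [smul_eq_mul]
    linear_combination 2 * vP' * ode_v
  · simp [vP']

lemma e_rel : (1 + 48 * X) * eP = (32 * X - 1) * vP' := by
  have e1 : (1 + 48 * X) * eP = eP + (C 48) * (X * eP) := by
    have h2 : (C (48 : ℤ) : ℤ⟦X⟧) = 48 := by simp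
    rw [h2]; ring
  have e2 : (32 * X - 1) * vP' = (C 32) * (X * vP') - vP' := by
    have h2 : (C (32 : ℤ) : ℤ⟦X⟧) = 32 := by simp
    rw [h2]; ring
  rw [e1, e2]
  ext n
  simp only [map_add, map_sub, coeff_C_mul]
  cases n with
  | zero => simp [eP, vP', eSeq]
  | succ n =>
    simp only [coeff_succ_X_mul, eP, vP', coeff_mk]
    cases n with
    | zero =>
      simp [eSeq, Nat.centralBinom]
    | succ n =>
      have h := cb_succ (n + 1)
      simp only [eSeq]
      push_cast at h ⊢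
      linear_combination (40 * (-12) ^ (n + 1)) * h

/-- The auxiliary series `(1 + 48 t) ^ (-1/2) * L`. -/
noncomputable def jP : ℤ⟦X⟧ := vP' * lP

lemma ode_j : jP + 2 * X * d⁄dX ℤ jP = 9 * (eP * fP) := by
  apply mul_left_cancel₀ one_add_ne
  unfold jP
  rw [Derivation.leibniz]
  simp only [smul_eq_mul]
  linear_combination (2 * X * lP) * ode_v + vP' * ode_l - 9 * fP * e_rel

lemma l_eq : lP = ((1 + 48 * X) * vP') * jP := by
  unfold jP
  linear_combination (- lP) * v_sq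

/-- Coefficients of `jP`. -/
noncomputable def jSeq (n : ℕ) : ℤ := coeff n jP

/-- Coefficients of `eP * fP`. -/
noncomputable def phi (n : ℕ) : ℤ := ∑ p ∈ antidiagonal n, eSeq p.1 * (fSeq p.2 : ℤ)

lemma jSeq_phi (n : ℕ) : (2 * (n : ℤ) + 1) * jSeq n = 9 * phi n := by
  have h := congrArg (coeff n) ode_j
  have e1 : jP + 2 * X * d⁄dX ℤ jP = jP + (C 2) * (X * d⁄dX ℤ jP) := by
    have h2 : (C (2 : ℤ) : ℤ⟦X⟧) = 2 := by simp
    rw [h2]; ring
  have e2 : 9 * (eP * fP) = C 9 * (eP * fP) := by simp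
  rw [e1, e2, map_add, coeff_C_mul, coeff_C_mul, coeff_mul n eP fP] at h
  have h3 : ∑ p ∈ antidiagonal n, coeff p.1 eP * coeff p.2 fP = phi n := by
    unfold phi eP fP
    simp only [coeff_mk]
  rw [h3] at h
  rw [← h]
  unfold jSeq
  cases n with
  | zero => simp
  | succ n => rw [coeff_succ_X_mul, coeff_derivative]; push_cast; ring

lemma three_dvd_v (m : ℕ) (hm : m ≠ 0) : (3 : ℤ) ∣ coeff m ((1 + 48 * X) * vP') := by
  obtain ⟨k, rfl⟩ := Nat.exists_eq_succ_of_ne_zero hm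
  have e1 : (1 + 48 * X) * vP' = vP' + (C 48) * (X * vP') := by
    have h2 : (C (48 : ℤ) : ℤ⟦X⟧) = 48 := by simp
    rw [h2]; ring
  rw [e1, map_add, coeff_C_mul, Nat.succ_eq_add_one, coeff_succ_X_mul]
  unfold vP'
  rw [coeff_mk, coeff_mk, pow_succ]
  exact ⟨(-12) ^ k * (-4) * (Nat.centralBinom (k + 1) : ℤ)
    + 16 * ((-12) ^ k * (Nat.centralBinom k : ℤ)), by ring⟩

lemma l_sub_j (h3 : ∀ n, (3 : ℤ) ∣ jSeq n) (n : ℕ) : (9 : ℤ) ∣ lSeq n - jSeq n := by
  have h := congrArg (coeff n) l_eq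
  rw [coeff_mul] at h
  have hl : coeff n lP = lSeq n := by unfold lP; rw [coeff_mk]
  rw [hl] at h
  rw [h]
  have h0 : (0, n) ∈ antidiagonal n := by simp
  rw [← Finset.add_sum_erase _ _ h0]
  have hc : coeff 0 ((1 + 48 * X) * vP') = 1 := by
    simp [vP']
  rw [show coeff (0, n).1 ((1 + 48 * X) * vP') * coeff (0, n).2 jP = jSeq n by
    rw [hc, one_mul]; rfl, add_sub_cancel_left]
  apply Finset.dvd_sum
  intro p hp
  rw [mem_erase, HasAntidiagonal.mem_antidiagonal] at hp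
  have hp1 : p.1 ≠ 0 := by
    intro h1
    apply hp.1
    ext
    · exact h1
    · simp only; omega
  have := mul_dvd_mul (three_dvd_v p.1 hp1) (h3 p.2)
  norm_num at this
  exact this

/-- The `3`-adic valuation of `fSeq`. -/
def s3 (n : ℕ) : ℕ := padicValNat 3 (fSeq n)

lemma fSeq_mul (n : ℕ) : fSeq n * n.factorial ^ 3 = (3 * n).factorial := by
  unfold fSeq
  have h1 := Nat.choose_mul_factorial_mul_factorial (n := 3 * n) (k := n) (by omega)
  have h2 := Nat.choose_mul_factorial_mul_factorial (n := 2 * n) (k := n) (by omega)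
  have e1 : 3 * n - n = 2 * n := by omega
  have e2 : 2 * n - n = n := by omega
  rw [e1] at h1
  rw [e2] at h2
  rw [Nat.centralBinom, ← h1, ← h2]
  ring

lemma fSeq_pos (n : ℕ) : 0 < fSeq n := by
  unfold fSeq
  exact Nat.mul_pos (Nat.choose_pos (by omega)) (Nat.centralBinom_pos n)

lemma s3_add (n : ℕ) : s3 n + 2 * padicValNat 3 n.factorial = n := by
  have : Fact (Nat.Prime 3) := ⟨Nat.prime_three⟩
  have h := congrArg (padicValNat 3) (fSeq_mul n)
  rw [padicValNat.mul (fSeq_pos n).ne' (pow_ne_zero _ (Nat.factorial_ne_zero n)),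
    padicValNat.pow, padicValNat_factorial_mul] at h
  unfold s3
  omega

lemma s3_sub (n j : ℕ) (hj : j ≤ n) :
    s3 n + 2 * padicValNat 3 j.factorial ≤ s3 (n - j) + j := by
  have : Fact (Nat.Prime 3) := ⟨Nat.prime_three⟩
  have h1 := s3_add n
  have h2 := s3_add (n - j)
  have h3 : padicValNat 3 (n - j).factorial + padicValNat 3 j.factorial
      ≤ padicValNat 3 n.factorial := by
    rw [← padicValNat.mul (Nat.factorial_ne_zero _) (Nat.factorial_ne_zero _)]
    have hd : (n - j).factorial * j.factorial ∣ n.factorial := by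
      have := Nat.factorial_mul_factorial_dvd_factorial hj
      rwa [mul_comm] at this
    exact padicValNat_dvd_iff_le (Nat.factorial_ne_zero n) |>.1
      ((pow_padicValNat_dvd).trans hd)
  omega

lemma s3_pos (n : ℕ) (hn : n ≠ 0) : 1 ≤ s3 n := by
  have : Fact (Nat.Prime 3) := ⟨Nat.prime_three⟩
  have h1 := s3_add n
  have h2 := sub_one_mul_padicValNat_factorial_lt_of_ne_zero 3 hn
  norm_num at h2
  omega

lemma s3_three_mul_add_one (k : ℕ) : s3 (3 * k + 1) = s3 k + 1 := by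
  have : Fact (Nat.Prime 3) := ⟨Nat.prime_three⟩
  have h1 := s3_add (3 * k + 1)
  have h2 := s3_add k
  have h3 : padicValNat 3 (3 * k + 1).factorial = padicValNat 3 (3 * k).factorial := by
    rw [Nat.factorial_succ, padicValNat.mul (by omega) (Nat.factorial_ne_zero _),
      padicValNat.eq_zero_of_not_dvd (by omega), zero_add]
  rw [padicValNat_factorial_mul] at h3
  omega

lemma s3_pred (n : ℕ) (hn : ¬ 3 ∣ n) : s3 n = s3 (n - 1) + 1 := by
  have : Fact (Nat.Prime 3) := ⟨Nat.prime_three⟩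
  have hn0 : n ≠ 0 := by rintro rfl; exact hn (dvd_zero _)
  obtain ⟨k, rfl⟩ := Nat.exists_eq_succ_of_ne_zero hn0
  have h1 := s3_add (k + 1)
  have h2 := s3_add k
  have h3 : padicValNat 3 (k + 1).factorial = padicValNat 3 k.factorial := by
    rw [Nat.factorial_succ, padicValNat.mul (by omega) (Nat.factorial_ne_zero _),
      padicValNat.eq_zero_of_not_dvd hn, zero_add]
  simp only [Nat.succ_eq_add_one, Nat.add_sub_cancel]
  omega

lemma s3_ge (e : ℕ) : ∀ n r : ℕ, 2 * n + 1 = 3 ^ e * r → r ≠ 1 → e + 1 ≤ s3 n := by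
  induction e with
  | zero =>
    intro n r h hr
    have : n ≠ 0 := by
      rintro rfl
      apply hr
      simpa using h.symm
    have := s3_pos n this
    omega
  | succ e ih =>
    intro n r h hr
    have h3 : 2 * n + 1 = 3 * (3 ^ e * r) := by rw [h, pow_succ]; ring
    have hk : ∃ k, n = 3 * k + 1 ∧ 2 * k + 1 = 3 ^ e * r := ⟨n / 3, by omega, by omega⟩
    obtain ⟨k, rfl, hk⟩ := hk
    have := ih k r hk hr
    rw [s3_three_mul_add_one]
    omega

lemma s3_eq (e : ℕ) : ∀ n : ℕ, 2 * n + 1 = 3 ^ e → s3 n = e := by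
  induction e with
  | zero =>
    intro n h
    have : n = 0 := by simpa using h
    subst this
    have := s3_add 0
    omega
  | succ e ih =>
    intro n h
    have h3 : 2 * n + 1 = 3 * 3 ^ e := by rw [h, pow_succ]; ring
    have hk : ∃ k, n = 3 * k + 1 ∧ 2 * k + 1 = 3 ^ e := ⟨n / 3, by omega, by omega⟩
    obtain ⟨k, rfl, hk⟩ := hk
    have := ih k hk
    rw [s3_three_mul_add_one]
    omega

lemma pow_dvd_fSeq (n a : ℕ) (h : a ≤ s3 n) : (3 : ℤ) ^ a ∣ (fSeq n : ℤ) := by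
  have : Fact (Nat.Prime 3) := ⟨Nat.prime_three⟩
  have : 3 ^ a ∣ fSeq n := (padicValNat_dvd_iff_le (fSeq_pos n).ne').2 h
  exact_mod_cast this

lemma pow_dvd_eSeq (m : ℕ) : (3 : ℤ) ^ m ∣ eSeq (m + 1) := by
  simp only [eSeq]
  refine ⟨4 * (-4) ^ m * (10 * (m + 1) + 3) * (Nat.centralBinom (m + 1) : ℤ), ?_⟩
  rw [show (-12 : ℤ) = 3 * (-4) by norm_num, mul_pow]
  ring

lemma term_dvd (n j : ℕ) (hj : j ≤ n) :
    (3 : ℤ) ^ (s3 n - 1) ∣ eSeq j * (fSeq (n - j) : ℤ) := by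
  cases j with
  | zero =>
    rw [Nat.sub_zero]
    exact Dvd.dvd.mul_left (pow_dvd_fSeq _ _ (by omega)) _
  | succ j =>
    have h1 := s3_sub n (j + 1) hj
    have h2 : (3 : ℤ) ^ (j + s3 (n - (j + 1))) ∣ eSeq (j + 1) * (fSeq (n - (j + 1)) : ℤ) := by
      rw [pow_add]
      exact mul_dvd_mul (pow_dvd_eSeq j) (pow_dvd_fSeq _ _ le_rfl)
    exact (pow_dvd_pow 3 (by omega)).trans h2

lemma phi_eq_range (n : ℕ) :
    phi n = ∑ j ∈ range (n + 1), eSeq j * (fSeq (n - j) : ℤ) := by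
  unfold phi
  rw [Finset.Nat.sum_antidiagonal_eq_sum_range_succ (fun i j => eSeq i * (fSeq j : ℤ))]

lemma phi_dvd (n : ℕ) (hn : n ≠ 0) : (3 : ℤ) ^ (s3 n - 1) ∣ phi n := by
  rw [phi_eq_range]
  apply Finset.dvd_sum
  intro j hj
  rw [mem_range] at hj
  exact term_dvd n j (by omega)

lemma term_dvd' (n j : ℕ) (hj : j ≤ n) (hj1 : j ≠ 1) :
    (3 : ℤ) ^ (s3 n) ∣ eSeq j * (fSeq (n - j) : ℤ) := by
  have : Fact (Nat.Prime 3) := ⟨Nat.prime_three⟩
  match j, hj, hj1 with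
  | 0, _, _ =>
    rw [Nat.sub_zero]
    exact Dvd.dvd.mul_left (pow_dvd_fSeq _ _ le_rfl) _
  | 1, _, h => exact absurd rfl h
  | 2, hj, _ =>
    have h1 := s3_sub n 2 hj
    have h2 : (3 : ℤ) ^ (2 + s3 (n - 2)) ∣ eSeq 2 * (fSeq (n - 2) : ℤ) := by
      rw [pow_add]
      refine mul_dvd_mul ?_ (pow_dvd_fSeq _ _ le_rfl)
      simp only [eSeq]
      have : Nat.centralBinom (1 + 1) = 6 := by decide
      rw [this]
      norm_num
    exact (pow_dvd_pow 3 (by omega)).trans h2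
  | (j + 3), hj, _ =>
    have h1 := s3_sub n (j + 3) hj
    have h3 : 1 ≤ padicValNat 3 (j + 3).factorial := by
      have : 3 ∣ (j + 3).factorial := Nat.dvd_factorial (by norm_num) (by omega)
      exact one_le_padicValNat_of_dvd (Nat.factorial_ne_zero _) this
    have h2 : (3 : ℤ) ^ ((j + 2) + s3 (n - (j + 3))) ∣ eSeq (j + 2 + 1)
        * (fSeq (n - (j + 3)) : ℤ) := by
      rw [pow_add]
      exact mul_dvd_mul (pow_dvd_eSeq (j + 2)) (pow_dvd_fSeq _ _ le_rfl)
    exact (pow_dvd_pow 3 (by omega)).trans h2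

lemma phi_not_dvd (n : ℕ) (hn : ¬ 3 ∣ n) : ¬ (3 : ℤ) ^ (s3 n) ∣ phi n := by
  have : Fact (Nat.Prime 3) := ⟨Nat.prime_three⟩
  have hn0 : n ≠ 0 := by rintro rfl; exact hn (dvd_zero _)
  intro hd
  rw [phi_eq_range] at hd
  have h1 : 1 ∈ range (n + 1) := by rw [mem_range]; omega
  rw [← Finset.add_sum_erase _ _ h1] at hd
  have h2 : (3 : ℤ) ^ (s3 n) ∣ ∑ x ∈ (range (n + 1)).erase 1, eSeq x * (fSeq (n - x) : ℤ) := by
    apply Finset.dvd_sum
    intro j hj
    rw [mem_erase, mem_range] at hj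
    exact term_dvd' n j (by omega) hj.1
  have h3 := (dvd_add_left h2).1 hd
  have he : eSeq 1 = 104 := by
    simp only [eSeq]
    have : Nat.centralBinom (0 + 1) = 2 := by decide
    rw [this]
    norm_num
  rw [he] at h3
  have h4 : (3 : ℤ) ^ (s3 n) ∣ (fSeq (n - 1) : ℤ) := by
    apply IsCoprime.dvd_of_dvd_mul_left _ h3
    apply IsCoprime.pow_left
    exact ⟨35, -1, by norm_num⟩
  have h5 : 3 ^ (s3 n) ∣ fSeq (n - 1) := by exact_mod_cast h4
  rw [padicValNat_dvd_iff_le (fSeq_pos _).ne'] at h5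
  have := s3_pred n hn
  unfold s3 at *
  omega

/-- If `2 n + 1` is not a power of three then `9` divides `jSeq n`. -/
lemma nine_dvd_j (n : ℕ) (h : ¬ ∃ m : ℕ, 2 * n + 1 = 3 ^ m) : (9 : ℤ) ∣ jSeq n := by
  obtain ⟨e, r, hr, he⟩ := Nat.exists_eq_pow_mul_and_not_dvd (n := 2 * n + 1) (by omega) 3
    (by norm_num)
  have hr1 : r ≠ 1 := by
    rintro rfl
    exact h ⟨e, by rw [he, mul_one]⟩
  have hn : n ≠ 0 := by
    rintro rfl
    exact h ⟨0, by norm_num⟩
  have hs := s3_ge e n r he hr1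
  have hphi : (3 : ℤ) ^ e ∣ phi n := (pow_dvd_pow 3 (by omega)).trans (phi_dvd n hn)
  obtain ⟨c, hc⟩ := hphi
  have hj := jSeq_phi n
  have he' : (2 * (n : ℤ) + 1) = 3 ^ e * r := by exact_mod_cast he
  rw [he', hc] at hj
  have h1 : (r : ℤ) * jSeq n = 9 * c := by
    have h3 : (3 : ℤ) ^ e ≠ 0 := by positivity
    apply mul_left_cancel₀ h3
    linear_combination hj
  have hcop : IsCoprime (9 : ℤ) (r : ℤ) := by
    have : Nat.Coprime 9 r := by
      have h3 : Nat.Coprime 3 r := (Nat.Prime.coprime_iff_not_dvd Nat.prime_three).2 hr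
      have := Nat.Coprime.pow_left 2 h3
      simpa using this
    exact_mod_cast Nat.isCoprime_iff_coprime.2 this
  exact hcop.dvd_of_dvd_mul_left ⟨c, h1⟩

/-- If `2 n + 1` is a power of three then `jSeq n` is three times an integer; for `n ≠ 0` that
integer is not divisible by three. -/
lemma j_of_pow (n m : ℕ) (h : 2 * n + 1 = 3 ^ m) (hn : n ≠ 0) :
    ∃ c : ℤ, jSeq n = 3 * c ∧ ¬ (3 : ℤ) ∣ c := by
  have hm : m ≠ 0 := by
    rintro rfl
    simp at h
    exact hn h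
  have hs := s3_eq m n h
  obtain ⟨c, hc⟩ := phi_dvd n hn
  have hj := jSeq_phi n
  have he' : (2 * (n : ℤ) + 1) = 3 ^ m := by exact_mod_cast h
  rw [he', hc, hs] at hj
  obtain ⟨k, rfl⟩ := Nat.exists_eq_succ_of_ne_zero hm
  rw [Nat.succ_eq_add_one, Nat.add_sub_cancel] at hj
  refine ⟨c, ?_, ?_⟩
  · have h3 : (3 : ℤ) ^ k ≠ 0 := by positivity
    have h4 : (3 : ℤ) ≠ 0 := by norm_num
    apply mul_left_cancel₀ h3
    apply mul_left_cancel₀ h4
    rw [pow_succ] at hj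
    linear_combination hj
  · intro h3
    have h3n : ¬ 3 ∣ n := by
      rintro ⟨l, rfl⟩
      have : 3 ∣ 3 ^ (k + 1) := dvd_pow_self 3 (by omega)
      rw [Nat.succ_eq_add_one] at h
      omega
    apply phi_not_dvd n h3n
    rw [hc, hs, Nat.succ_eq_add_one, Nat.add_sub_cancel, pow_succ]
    exact mul_dvd_mul_left _ h3

lemma three_dvd_j (n : ℕ) : (3 : ℤ) ∣ jSeq n := by
  by_cases h : ∃ m : ℕ, 2 * n + 1 = 3 ^ m
  · by_cases hn : n = 0
    · subst hn
      have := jSeq_phi 0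
      rw [phi_eq_range] at this
      simp [eSeq, fSeq] at this
      rw [this]
      norm_num
    · obtain ⟨m, hm⟩ := h
      obtain ⟨c, hc, -⟩ := j_of_pow n m hm hn
      exact ⟨c, hc⟩
  · exact (by norm_num : (3 : ℤ) ∣ 9).trans (nine_dvd_j n h)

theorem nine_dvd_l (n : ℕ) (h : ¬ ∃ m : ℕ, 2 * n + 1 = 3 ^ m) : (9 : ℤ) ∣ lSeq n :=
  (dvd_sub_left (nine_dvd_j n h)).1 (l_sub_j three_dvd_j n)

theorem l_of_pow (n m : ℕ) (h : 2 * n + 1 = 3 ^ m) (hn : n ≠ 0) :
    ∃ c : ℤ, lSeq n = 3 * c ∧ ¬ (3 : ℤ) ∣ c := by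
  obtain ⟨c, hc, hc3⟩ := j_of_pow n m h hn
  obtain ⟨d, hd⟩ := l_sub_j three_dvd_j n
  refine ⟨c + 3 * d, by linear_combination hd + hc, ?_⟩
  intro h3
  exact hc3 ((dvd_add_left (Dvd.intro d rfl)).1 h3)

end Pool.Agent.Helper27.Mag
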